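import Mathlib

namespace Pool.Agent.Results.MP_1c393c_co.StarEdge

open Sum

/-- A finite simple graph. -/
structure FG where
  V : Type
  fin : Finite V
  G : SimpleGraph V

/-- Proper edge colouring; only the values of `c` on edges matter. -/
def Proper {V : Type} (G : SimpleGraph V) (c : Sym2 V → ℕ) : Prop :=
  ∀ u v w, G.Adj u v → G.Adj u w → v ≠ w → c s(u, v) ≠ c s(u, w)

/-- The number of colours used. -/
noncomputable def used {V : Type} (G : SimpleGraph V) (c : Sym2 V → ℕ) : ℕ :=
  (c '' G.edgeSet).ncard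

/-- The chromatic index. -/
noncomputable def chromIndex {V : Type} (G : SimpleGraph V) : ℕ :=
  sInf {m | ∃ c, Proper G c ∧ used G c = m}

/-- A rainbow copy of `H` in `G`. -/
def Rainbow {W V : Type} (H : SimpleGraph W) (G : SimpleGraph V) (c : Sym2 V → ℕ) : Prop :=
  ∃ φ : H →g G, Function.Injective φ ∧ Set.InjOn (fun e => c (Sym2.map φ e)) H.edgeSet

/-- `G` is a non-monotone witness for `H`. -/
def Witness {W V : Type} (H : SimpleGraph W) (G : SimpleGraph V) : Prop :=
  (∀ c, Proper G c → used G c = chromIndex G → Rainbow H G c) ∧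
    ∃ c, Proper G c ∧ ¬ Rainbow H G c

abbrev I (r : ℕ) := Fin r ⊕ Fin 3
abbrev V (r : ℕ) := I r ⊕ I r ⊕ Fin 3

def hA {r : ℕ} : I r → I r → Prop
  | inl _, inl _ => False
  | inl _, inr t => t = 2
  | inr t, inl _ => t = 2
  | inr s, inr t => s ≠ t

def HH (r : ℕ) : SimpleGraph (I r) where
  Adj := hA
  symm := ⟨by rintro (a | a) (b | b) h <;> simp_all [hA, eq_comm]⟩
  loopless := ⟨by rintro (a | a) h <;> simp_all [hA]⟩

def gA {r : ℕ} : V r → V r → Prop
  | inl _, inl _ => False
  | inl i, inr (inl j) => i ≠ j ∨ i.isRight = true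
  | inr (inl j), inl i => i ≠ j ∨ i.isRight = true
  | inr (inl _), inr (inl _) => False
  | inl i, inr (inr t) => t = 2 ∧ i.isLeft = true
  | inr (inr t), inl i => t = 2 ∧ i.isLeft = true
  | inr (inl j), inr (inr t) => t = 0 ∧ j.isLeft = true
  | inr (inr t), inr (inl j) => t = 0 ∧ j.isLeft = true
  | inr (inr s), inr (inr t) => s ≠ t

def GG (r : ℕ) : SimpleGraph (V r) where
  Adj := gA
  symm := ⟨by rintro (a | a | a) (b | b | b) h <;> first | exact h | exact Ne.symm h⟩
  loopless := ⟨by rintro (a | a | a) h <;> first | exact h | exact h rfl⟩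

def col {r m : ℕ} (e : I r → ZMod m) : V r → V r → ZMod m
  | inl _, inl _ => 0
  | inl i, inr (inl j) => e i + e j
  | inr (inl j), inl i => e i + e j
  | inr (inl _), inr (inl _) => 0
  | inl i, inr (inr _) => e i + e i
  | inr (inr _), inl i => e i + e i
  | inr (inl j), inr (inr _) => e j + e j
  | inr (inr _), inr (inl j) => e j + e j
  | inr (inr s), inr (inr t) => e (inr (s + t)) + e (inr (s + t))

lemma col_symm {r m : ℕ} (e : I r → ZMod m) (x y : V r) : col e x y = col e y x := by
  rcases x with a | a | a <;> rcases y with b | b | b <;> simp only [col, add_comm]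

lemma index_le (t : ℕ) : chromIndex (GG (2 * t + 2)) ≤ 2 * t + 5 := by
  obtain ⟨e⟩ : Nonempty (I (2 * t + 2) ≃ ZMod (2 * t + 5)) :=
    ⟨Fintype.equivOfCardEq (by simp [ZMod.card])⟩
  have hu : IsUnit ((2 : ℕ) : ZMod (2 * t + 5)) := by
    rw [ZMod.isUnit_iff_coprime]
    exact (Nat.coprime_two_left).2 ⟨t + 2, by ring⟩
  have h2 : ∀ x y, e x + e x = e y + e y ↔ x = y := by
    intro x y
    refine ⟨fun h => e.injective (hu.mul_left_cancel ?_), fun h => by rw [h]⟩
    push_cast
    linear_combination h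
  let c : Sym2 (V (2 * t + 2)) → ℕ := fun s => (Sym2.lift ⟨col e, col_symm e⟩ s).val
  have hc : Proper (GG (2 * t + 2)) c := by
    intro u v w h1 h3 hne h
    have h4 : col e u v = col e u w := ZMod.val_injective _ h
    clear h
    rcases u with a | a | a <;> rcases v with b | b | b <;> rcases w with d | d | d <;>
      simp only [GG, gA, col, add_right_inj, add_left_inj, h2, e.injective.eq_iff] at h1 h3 h4 <;>
      first
      | (apply hne; rw [h4]; done)
      | (obtain ⟨h5, -⟩ := h1; obtain ⟨h6, -⟩ := h3; omega)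
      | (subst h4; simp_all; done)
      | (cases a <;> simp_all; done)
      | (cases b <;> simp_all; done)
      | (cases d <;> simp_all; done)
      | simp_all
  have hle : chromIndex (GG (2 * t + 2)) ≤ used (GG (2 * t + 2)) c :=
    Nat.sInf_le (s := {m | ∃ c, Proper (GG (2 * t + 2)) c ∧ used (GG (2 * t + 2)) c = m})
      ⟨c, hc, rfl⟩
  refine hle.trans ?_
  have : c '' (GG (2 * t + 2)).edgeSet ⊆ Set.range (ZMod.val : ZMod (2 * t + 5) → ℕ) := by
    rintro _ ⟨s, -, rfl⟩; exact ⟨_, rfl⟩
  refine (Set.ncard_le_ncard this (Set.toFinite _)).trans ?_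
  rw [Set.ncard_range_of_injective (ZMod.val_injective _)]
  simp

lemma forcing (r : ℕ) (c : Sym2 (V r) → ℕ) (hc : Proper (GG r) c) (hu : used (GG r) c ≤ r + 3)
    (i : Fin r) : c s(inr (inr 2), inl (inl i)) ≠ c s(inr (inr 0), inr (inr 1)) := by
  classical
  intro h
  set k := c s(inr (inr 2), inl (inl i)) with hk
  have sees : ∀ j : I r, ∃ x, (GG r).Adj (inr (inl j)) x ∧ c s(inr (inl j), x) = k := by
    intro j
    let nb : I r → V r := fun x => if x = j ∧ j.isLeft = true then inr (inr 0) else inl x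
    have hadj : ∀ x, (GG r).Adj (inr (inl j)) (nb x) := by
      intro x
      simp only [nb]
      split_ifs with h1
      · exact ⟨rfl, h1.2⟩
      · show x ≠ j ∨ x.isRight = true
        by_cases h2 : x = j
        · subst h2; cases x <;> simp_all
        · exact Or.inl h2
    have hinj : Function.Injective nb := by
      intro x y hxy
      simp only [nb] at hxy
      split_ifs at hxy with h1 h2
      · exact h1.1.trans h2.1.symm
      · exact inl_injective hxy
    have hinj2 : Function.Injective fun x => c s(inr (inl j), nb x) := by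
      intro x y hxy
      by_contra hne
      exact hc _ _ _ (hadj x) (hadj y) (hinj.ne hne) hxy
    have hsub : Set.range (fun x => c s(inr (inl j), nb x)) ⊆ c '' (GG r).edgeSet := by
      rintro _ ⟨x, rfl⟩; exact ⟨_, hadj x, rfl⟩
    have heq := Set.eq_of_subset_of_ncard_le hsub (by
      rw [Set.ncard_range_of_injective hinj2]; simpa [used] using hu)
    have hmem : k ∈ c '' (GG r).edgeSet :=
      ⟨s(inr (inr 2), inl (inl i)), (⟨rfl, rfl⟩ : gA (inr (inr 2)) (inl (inl i))), rfl⟩
    rw [← heq] at hmem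
    obtain ⟨x, hx⟩ := hmem
    exact ⟨nb x, hadj x, hx⟩
  have sees2 : ∀ j : I r, ∃ x : I r, (GG r).Adj (inr (inl j)) (inl x) ∧
      c s(inr (inl j), inl x) = k := by
    intro j
    obtain ⟨x | x | x, h1, h2⟩ := sees j
    · exact ⟨x, h1, h2⟩
    · exact h1.elim
    · obtain rfl : x = 0 := h1.1
      rw [Sym2.eq_swap] at h2
      exact absurd (h2.trans h) (hc _ _ _ h1.symm (by show (0 : Fin 3) ≠ 1; decide) (by simp))
  choose g hg hg' using sees2
  have ginj : Function.Injective g := by
    intro x y hxy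
    by_contra hne
    have h1 := hg x
    have h2 := hg y
    have h3 := hg' x
    have h4 := hg' y
    rw [hxy] at h1 h3
    rw [Sym2.eq_swap] at h3 h4
    exact hc _ _ _ h1.symm h2.symm (by simpa using hne) (h3.trans h4.symm)
  obtain ⟨j, hj⟩ := (Finite.injective_iff_surjective.1 ginj) (inl i)
  have h1 := hg j
  have h2 := hg' j
  rw [hj] at h1 h2
  rw [hk, Sym2.eq_swap, Sym2.eq_swap (a := inr (inr 2))] at h2
  exact hc _ _ (inr (inr 2)) h1.symm
    (show (GG r).Adj (inl (inl i)) (inr (inr 2)) from ⟨rfl, rfl⟩) (by simp) h2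

def emb (r : ℕ) : HH r →g GG r where
  toFun x := match x with
    | inl i => inl (inl i)
    | inr t => inr (inr t)
  map_rel' := by
    rintro (a | a) (b | b) h
    · exact h
    · exact ⟨h, rfl⟩
    · exact ⟨h, rfl⟩
    · exact h

lemma edge_form (r : ℕ) (e : Sym2 (I r)) (he : e ∈ (HH r).edgeSet) :
    e = s(inr 0, inr 1) ∨ ∃ x, (HH r).Adj (inr 2) x ∧ e = s(inr 2, x) := by
  induction e using Sym2.ind with
  | _ a b =>
    rcases a with a | a <;> rcases b with b | b
    · exact he.elim
    · obtain rfl : b = 2 := he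
      exact Or.inr ⟨inl a, rfl, Sym2.eq_swap⟩
    · obtain rfl : a = 2 := he
      exact Or.inr ⟨inl b, rfl, rfl⟩
    · have h : a ≠ b := he
      by_cases h1 : a = 2
      · subst h1; exact Or.inr ⟨inr b, h, rfl⟩
      by_cases h2 : b = 2
      · subst h2; exact Or.inr ⟨inr a, h.symm, Sym2.eq_swap⟩
      left
      have : (a = 0 ∧ b = 1) ∨ (a = 1 ∧ b = 0) := by omega
      rcases this with ⟨rfl, rfl⟩ | ⟨rfl, rfl⟩
      · rfl
      · exact Sym2.eq_swap

lemma rainbow (r : ℕ) (c : Sym2 (V r) → ℕ) (hc : Proper (GG r) c) (hu : used (GG r) c ≤ r + 3) :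
    Rainbow (HH r) (GG r) c := by
  have hinj : Function.Injective (emb r) := by
    rintro (a | a) (b | b) h <;> simp_all [emb]
  have key : ∀ x, (HH r).Adj (inr 2) x →
      c s(inr (inr 2), emb r x) ≠ c s(inr (inr 0), inr (inr 1)) := by
    rintro (i | t) hx
    · exact forcing r c hc hu i
    · have h : (2 : Fin 3) ≠ t := hx
      have : t = 0 ∨ t = 1 := by omega
      rcases this with rfl | rfl
      · rw [Sym2.eq_swap]
        exact hc (inr (inr 0)) (inr (inr 2)) (inr (inr 1)) (by show (0 : Fin 3) ≠ 2; decide)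
          (by show (0 : Fin 3) ≠ 1; decide) (by simp)
      · rw [Sym2.eq_swap, Sym2.eq_swap (a := inr (inr 0))]
        exact hc (inr (inr 1)) (inr (inr 2)) (inr (inr 0)) (by show (1 : Fin 3) ≠ 2; decide)
          (by show (1 : Fin 3) ≠ 0; decide) (by simp)
  refine ⟨emb r, hinj, fun e he e' he' h => ?_⟩
  rcases edge_form r e he with rfl | ⟨x, hx, rfl⟩ <;>
    rcases edge_form r e' he' with rfl | ⟨y, hy, rfl⟩
  · rfl
  · exact absurd (Eq.symm h) (key y hy)
  · exact absurd h (key x hx)
  · by_contra hne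
    have hxy : x ≠ y := fun h' => hne (by rw [h'])
    exact hc _ _ _ ((emb r).map_adj hx) ((emb r).map_adj hy) (hinj.ne hxy) h

lemma tri (r : ℕ) (x y z : V r) (h1 : (GG r).Adj z x) (h2 : (GG r).Adj z y) (h3 : (GG r).Adj x y) :
    ∃ a b d : Fin 3, x = inr (inr a) ∧ y = inr (inr b) ∧ z = inr (inr d) := by
  rcases x with a | a | a <;> rcases y with b | b | b <;> rcases z with d | d | d <;>
    simp only [GG, gA] at h1 h2 h3 <;>
    first
    | exact ⟨_, _, _, rfl, rfl, rfl⟩
    | (exfalso; omega)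
    | (exfalso; obtain ⟨h4, -⟩ := h1; obtain ⟨h5, -⟩ := h2; omega)
    | (exfalso; obtain ⟨h4, -⟩ := h1; obtain ⟨h5, -⟩ := h3; omega)
    | (exfalso; obtain ⟨h4, -⟩ := h2; obtain ⟨h5, -⟩ := h3; omega)

lemma no_rainbow (r : ℕ) (hr : 0 < r) : ∃ c, Proper (GG r) c ∧ ¬ Rainbow (HH r) (GG r) c := by
  classical
  obtain ⟨enc, henc⟩ := exists_injective_nat (Sym2 (V r))
  let o : Fin r := ⟨0, hr⟩
  let ρ : Sym2 (V r) → Sym2 (V r) := fun e =>
    if e = s(inr (inr 0), inr (inr 1)) then s(inr (inr 2), inl (inl o))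
    else if e = s(inr (inr 1), inr (inr 2)) then s(inr (inr 0), inr (inl (inl o))) else e
  refine ⟨fun e => enc (ρ e), fun u v w _ _ hne h => ?_, ?_⟩
  · have h1 := henc h
    simp only [ρ] at h1
    split_ifs at h1 with a1 a2 a3 a4 a5 a6 a7 a8 <;>
      simp only [Sym2.eq_iff] at * <;> grind
  · rintro ⟨φ, hφ, hinj⟩
    have a01 : (HH r).Adj (inr 0) (inr 1) := by show (0 : Fin 3) ≠ 1; decide
    have a20 : (HH r).Adj (inr 2) (inr 0) := by show (2 : Fin 3) ≠ 0; decide
    have a21 : (HH r).Adj (inr 2) (inr 1) := by show (2 : Fin 3) ≠ 1; decide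
    have ai : ∀ i : Fin r, (HH r).Adj (inr 2) (inl i) := fun i => rfl
    obtain ⟨a, b, d, ha, hb, hd⟩ := tri r _ _ _ (φ.map_adj a20) (φ.map_adj a21) (φ.map_adj a01)
    have hab : a ≠ b := by have := φ.map_adj a01; rwa [ha, hb] at this
    have hda : d ≠ a := by have := φ.map_adj a20; rwa [ha, hd] at this
    have hdb : d ≠ b := by have := φ.map_adj a21; rwa [hb, hd] at this
    have nb : ∀ i : Fin r, ∃ j : Fin r, (d = 2 ∧ φ (inl i) = inl (inl j)) ∨
        (d = 0 ∧ φ (inl i) = inr (inl (inl j))) := by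
      intro i
      have h1 := φ.map_adj (ai i)
      have n1 : φ (inl i) ≠ φ (inr 0) := hφ.ne (by simp)
      have n2 : φ (inl i) ≠ φ (inr 1) := hφ.ne (by simp)
      rw [hd] at h1
      rw [ha] at n1
      rw [hb] at n2
      generalize φ (inl i) = x at h1 n1 n2
      rcases x with (j | j) | (j | j) | j
      · exact ⟨j, Or.inl ⟨h1.1, rfl⟩⟩
      · exact absurd h1.2 (by simp)
      · exact ⟨j, Or.inr ⟨h1.1, rfl⟩⟩
      · exact absurd h1.2 (by simp)
      · have h2 : d ≠ j := h1
        have h3 : j ≠ a := fun h => n1 (by rw [h])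
        have h4 : j ≠ b := fun h => n2 (by rw [h])
        omega
    choose g hg using nb
    have ginj : Function.Injective g := by
      intro x y hxy
      have : φ (inl x) = φ (inl y) := by
        rcases hg x with h1 | h1 <;> rcases hg y with h2 | h2
        · rw [h1.2, h2.2, hxy]
        · have := h1.1; have := h2.1; omega
        · have := h1.1; have := h2.1; omega
        · rw [h1.2, h2.2, hxy]
      exact inl_injective (hφ this)
    obtain ⟨i, hi⟩ := (Finite.injective_iff_surjective.1 ginj) o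
    have := @hinj s(inr 0, inr 1) a01 s(inr 2, inl i) (ai i) (by
      simp only [Sym2.map_mk, ha, hb, hd]
      congr 1
      rcases hg i with ⟨rfl, h2⟩ | ⟨rfl, h2⟩
      · have : (a = 0 ∧ b = 1) ∨ (a = 1 ∧ b = 0) := by omega
        rw [h2, hi]
        rcases this with ⟨rfl, rfl⟩ | ⟨rfl, rfl⟩ <;> simp [ρ]
      · have : (a = 1 ∧ b = 2) ∨ (a = 2 ∧ b = 1) := by omega
        rw [h2, hi]
        rcases this with ⟨rfl, rfl⟩ | ⟨rfl, rfl⟩ <;> simp [ρ])
    simp at this

theorem result : ∃ H : ℕ → FG, (∀ i, (H i).G.Connected) ∧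
    (∀ i j, i ≠ j → IsEmpty ((H i).G ≃g (H j).G)) ∧ ∀ i, ∃ G : FG, Witness (H i).G G.G := by
  refine ⟨fun t => ⟨I (2 * t + 2), inferInstance, HH _⟩, fun t => ?_, fun i j hij => ⟨fun φ => ?_⟩,
    fun t => ⟨⟨V (2 * t + 2), inferInstance, GG _⟩, fun c hc hu => ?_, no_rainbow _ (by omega)⟩⟩
  · have : ∀ x, (HH (2 * t + 2)).Reachable (inr 2) x := by
      rintro (i | s)
      · exact SimpleGraph.Adj.reachable (show (HH (2 * t + 2)).Adj (inr 2) (inl i) from rfl)
      · by_cases h : 2 = s
        · rw [← h]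
        · exact SimpleGraph.Adj.reachable (show (HH (2 * t + 2)).Adj (inr 2) (inr s) from h)
    exact ⟨fun u v => (this u).symm.trans (this v)⟩
  · have := Nat.card_congr φ.toEquiv
    simp at this
    omega
  · exact rainbow _ c hc (hu.le.trans (index_le t))

end Pool.Agent.Results.MP_1c393c_co.StarEdge
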